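import Pool.Agent.H904.TW.Mod

set_option autoImplicit false

/-!
# The SYZ conjecture in twistor families of torus quotients

Let `X = V / Γ` be a primitive symplectic variety that is the quotient of a complex torus by a finite
group, with a flat hyperkähler structure `(K, N)`: a Kähler class `K` and an operator `N` such that
`I = i`, `N`, `I N` are parallel orthogonal complex structures. For `u` in the unit sphere let `X_u` be
the quotient `X` with the complex structure `I_u = u₀ I + u₁ N + u₂ I N`.

The theorem says that for every isotropic class `0 ≠ E ∈ H²(X, ℚ)`, `q_X(E) = 0`, there is exactly one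
member `X_u` of the twistor family with a nef line bundle whose class is a positive multiple of `E`,
and this line bundle induces a holomorphic Lagrangian fibration of `X_u`, whose underlying map is the
projection of the real vector space `V` modulo the kernel of `E`.

`IsPrimitiveSymplectic` and `LineBundle` are defined in `Pool.Agent.W594.SYZ.Defs2`; `IsChernForm`,
`IsNefForm`, `IsLagrangianFibration` and `Induces` in `Pool.Agent.W594.SYZ.TQDefs`; `deform`, `IsClass`
and `Isotropic` in `Pool.Agent.R189.WS.Conj`; `IsHyperkahler` and `IsModel` in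
`Pool.Agent.H904.TW.Defs`.

The proof: let `s` be the symplectic form with `s(x, N y) = K(x, y)`. Then `E(x, y) = Im s(x, B y)`,
`B = A + t N - c`, where `A` is conjugate linear and anticommutes with `N`, and `A² = r²`,
`r² = t² + |c|²`, since `E` is degenerate. The form `E` is of type `(1,1)` for `I_u` if and only if `u`
is parallel to `(t, Im c, Re c)`, and for `u = (t, Im c, Re c) / r` the number `2 r E(I_u x, x)` is the
square of the length of `r x - Z x` for a certain operator `Z`.
-/

namespace Pool.Agent.Results.MP_63735c_ag.TwistorFamilies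

open Pool.Agent.W594.SYZ2 Pool.Agent.R189 Pool.Agent.H904.TW

/-- Let `X = V / Γ`, `dim X > 0`, be a primitive symplectic torus quotient with a hyperkähler structure
`(K, N)`, and `0 ≠ E ∈ H²(X, ℚ)` with `q_X(E) = 0`. There is a unit vector `u` such that:
* `X_u` exists, that is, there is a `φ` which identifies `X_u` with `X_φ = V / φ Γ φ⁻¹`;
* for all these `φ` there is a nef line bundle `L` on `X_φ` whose class is `m E` for an integer `m ≥ 1`,
  and `L` induces a holomorphic Lagrangian fibration `f : X_φ → B` given by a linear map `π` such that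
  the kernel of `π ∘ φ` is the kernel of `E`;
* if `X_u'` has a nef line bundle whose class is a positive multiple of `E`, then `u' = u`. -/
theorem result {V : Type*} [NormedAddCommGroup V] [NormedSpace ℂ V] [FiniteDimensional ℂ V]
    [Nontrivial V] (Γ : Subgroup (V ≃ᵃ[ℂ] V)) (hΓ : IsPrimitiveSymplectic Γ) (K : V → V → ℂ)
    (N : V → V) (h : IsHyperkahler Γ K N) (E : V → V → ℝ) (hE : WS2.IsClass Γ E)
    (h0 : WS2.Isotropic E) :
    ∃ u : Fin 3 → ℝ, u 0 ^ 2 + u 1 ^ 2 + u 2 ^ 2 = 1 ∧ (∃ φ, IsModel Γ N u φ) ∧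
      (∀ φ, IsModel Γ N u φ →
        ∃ (L : LineBundle (WS2.deform Γ φ)) (H : V → V → ℂ) (m : ℕ), 0 < m ∧ IsChernForm L H ∧
          IsNefForm H ∧ (∀ v w, (H (φ v) (φ w)).im = m * E v w) ∧
          ∃ (n : ℕ) (Δ : Subgroup ((Fin n → ℂ) ≃ᵃ[ℂ] (Fin n → ℂ))) (π : V →ₗ[ℂ] (Fin n → ℂ)),
            (∀ v, π (φ v) = 0 ↔ ∀ w, E v w = 0) ∧ IsLagrangianFibration (WS2.deform Γ φ) Δ π ∧
            Induces L Δ π) ∧
      ∀ (u' : Fin 3 → ℝ) (φ' : V ≃L[ℝ] V), u' 0 ^ 2 + u' 1 ^ 2 + u' 2 ^ 2 = 1 →
        IsModel Γ N u' φ' →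
        (∃ (L' : LineBundle (WS2.deform Γ φ')) (H' : V → V → ℂ) (m' : ℝ), 0 < m' ∧
          IsChernForm L' H' ∧ IsNefForm H' ∧ ∀ v w, (H' (φ' v) (φ' w)).im = m' * E v w) →
        u' = u := by
  have hE' := WS2.isClass_iff.1 hE
  have h0' : WS.Isotropic E := h0
  obtain ⟨x, y, hxy⟩ := h0.1
  obtain ⟨x₁, hx, hx1⟩ := h0.2
  obtain ⟨u, hu, h11, hn, huniq⟩ := exists_direction hΓ h hE'.isAlt ⟨x, y, hxy⟩ hx hx1
  refine ⟨u, hu, exists_model h hu, fun φ hφ => ?_, fun u' φ' hu' hφ' hL => ?_⟩
  · rw [WS2.deform_eq]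
    exact fib_of_model hΓ hφ hE' h0' h11 hn
  · obtain ⟨L', H', m', hm', hc', hn', him'⟩ := hL
    obtain ⟨t1, t2⟩ := type_of_model hφ' hc'.1 hn' hm' him'
    exact huniq u' hu' t1 t2

end Pool.Agent.Results.MP_63735c_ag.TwistorFamilies
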